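import Pool.Agent.H741.RS.Stm

/-!
# Cayley transforms of an operator which is self-adjoint for the form J
-/

set_option autoImplicit false
open scoped ComplexConjugate

namespace Pool.Agent.H205.RS.CAY

open Pool.Agent.H741.RS

/-- additivity -/
theorem J_add_left {n : ℕ} (a a' b : ℂ × V n) : J (a + a') b = J a b + J a' b := by
  simp only [J, hp, Prod.fst_add, Prod.snd_add, inner_add_right]; ring

theorem J_sub_left {n : ℕ} (a a' b : ℂ × V n) : J (a - a') b = J a b - J a' b := by
  simp only [J, hp, Prod.fst_sub, Prod.snd_sub, inner_sub_right]; ring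

theorem J_add_right {n : ℕ} (a b b' : ℂ × V n) : J a (b + b') = J a b + J a b' := by
  simp only [J, hp, Prod.fst_add, Prod.snd_add, inner_add_left, map_add]; ring

theorem J_sub_right {n : ℕ} (a b b' : ℂ × V n) : J a (b - b') = J a b - J a b' := by
  simp only [J, hp, Prod.fst_sub, Prod.snd_sub, inner_sub_left, map_sub]; ring

theorem J_smul_left {n : ℕ} (c : ℂ) (a b : ℂ × V n) : J (c • a) b = c * J a b := by
  simp only [J, hp, Prod.smul_fst, Prod.smul_snd, inner_smul_right, smul_eq_mul]; ring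

theorem J_smul_right {n : ℕ} (c : ℂ) (a b : ℂ × V n) : J a (c • b) = conj c * J a b := by
  simp only [J, hp, Prod.smul_fst, Prod.smul_snd, inner_smul_left, smul_eq_mul, map_mul]; ring

/-- `X + i t` -/
noncomputable def Q {n : ℕ} (X : Module.End ℂ (ℂ × V n)) (t : ℝ) : Module.End ℂ (ℂ × V n) :=
  X + (Complex.I * t) • (1 : Module.End ℂ (ℂ × V n))

/-- `X - i t` -/
noncomputable def P {n : ℕ} (X : Module.End ℂ (ℂ × V n)) (t : ℝ) : Module.End ℂ (ℂ × V n) :=
  X - (Complex.I * t) • (1 : Module.End ℂ (ℂ × V n))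

theorem conj_it (t : ℝ) : conj (Complex.I * (t : ℂ)) = -(Complex.I * t) := by
  simp

theorem J_Q {n : ℕ} (X : Module.End ℂ (ℂ × V n)) (hX : ∀ a b, J (X a) b = J a (X b)) (t : ℝ)
    (a b : ℂ × V n) : J (Q X t a) b = J a (P X t b) := by
  simp only [Q, P, LinearMap.add_apply, LinearMap.sub_apply, LinearMap.smul_apply,
    Module.End.one_apply, J_add_left, J_sub_right, J_smul_left, J_smul_right, hX, conj_it]
  ring

theorem J_P {n : ℕ} (X : Module.End ℂ (ℂ × V n)) (hX : ∀ a b, J (X a) b = J a (X b)) (t : ℝ)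
    (a b : ℂ × V n) : J (P X t a) b = J a (Q X t b) := by
  simp only [Q, P, LinearMap.add_apply, LinearMap.sub_apply, LinearMap.smul_apply,
    Module.End.one_apply, J_sub_left, J_add_right, J_smul_left, J_smul_right, hX, conj_it]
  ring

/-- large imaginary shifts are invertible -/
theorem exists_t0 {n : ℕ} (X : Module.End ℂ (ℂ × V n)) :
    ∃ t0 : ℝ, ∀ t : ℝ, t0 < t → IsUnit (P X t) := by
  have hfin : (spectrum ℂ X).Finite := Module.End.finite_spectrum X
  obtain ⟨t0, ht0⟩ := (hfin.image (fun μ => ‖μ‖)).bddAbove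
  refine ⟨t0, fun t ht => ?_⟩
  have h1 : Complex.I * (t : ℂ) ∉ spectrum ℂ X := by
    intro h
    have h2 : ‖Complex.I * (t : ℂ)‖ ≤ t0 := ht0 ⟨_, h, rfl⟩
    rw [norm_mul, Complex.norm_I, one_mul, Complex.norm_real] at h2
    have h3 : t ≤ ‖t‖ := le_abs_self t
    linarith
  rw [spectrum.notMem_iff] at h1
  have h4 : P X t = -(algebraMap ℂ (Module.End ℂ (ℂ × V n)) (Complex.I * t) - X) := by
    rw [P, Algebra.algebraMap_eq_smul_one]; abel
  rw [h4]
  exact h1.neg

/-- the constant term of a quadratic relation is bounded -/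
theorem exists_M {n : ℕ} (X : Module.End ℂ (ℂ × V n)) (hns : ¬ ∃ c : ℂ, X = c • (1 : Module.End ℂ (ℂ × V n))) :
    ∃ M : ℝ, ∀ β γ : ℂ, X * X + β • X + γ • (1 : Module.End ℂ (ℂ × V n)) = 0 → ‖γ‖ ≤ M := by
  by_cases h : ∃ β γ : ℂ, X * X + β • X + γ • (1 : Module.End ℂ (ℂ × V n)) = 0
  · obtain ⟨β0, γ0, h0⟩ := h
    refine ⟨‖γ0‖, fun β γ h1 => ?_⟩
    have h2 : (β - β0) • X + (γ - γ0) • (1 : Module.End ℂ (ℂ × V n)) = 0 := by
      have := congrArg₂ (· - ·) h1 h0
      simp only [sub_zero] at this
      rw [← this]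
      module
    have h3 : β - β0 = 0 := by
      by_contra h4
      apply hns
      refine ⟨-((β - β0)⁻¹ * (γ - γ0)), ?_⟩
      have h5 := congrArg (fun Y => (β - β0)⁻¹ • Y) h2
      simp only [smul_add, smul_zero, smul_smul, inv_mul_cancel₀ h4, one_smul] at h5
      calc X = -(((β - β0)⁻¹ * (γ - γ0)) • (1 : Module.End ℂ (ℂ × V n))) :=
            eq_neg_of_add_eq_zero_left h5
        _ = _ := by module
    rw [h3, zero_smul, zero_add] at h2
    have h6 : γ - γ0 = 0 := by
      rcases smul_eq_zero.1 h2 with h7 | h7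
      · exact h7
      · exact absurd h7 one_ne_zero
    rw [sub_eq_zero.1 h6]
  · exact ⟨0, fun β γ h1 => absurd ⟨β, γ, h1⟩ h⟩

theorem t_CAY : S_CAY := by
  intro n X hX hns
  have hns' : ¬ ∃ c : ℂ, X = c • (1 : Module.End ℂ (ℂ × V n)) := hns
  obtain ⟨t0, ht0⟩ := exists_t0 X
  obtain ⟨M, hM⟩ := exists_M X hns'
  let t : ℕ → ℝ := fun m => (|t0| + |M| + 1) + m
  have ht1 : ∀ m, t0 < t m := by
    intro m
    have := le_abs_self t0
    have := abs_nonneg M
    have : (0 : ℝ) ≤ m := Nat.cast_nonneg m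
    simp only [t]; linarith
  have ht2 : ∀ m, 1 ≤ t m := by
    intro m
    have := abs_nonneg t0
    have := abs_nonneg M
    have : (0 : ℝ) ≤ m := Nat.cast_nonneg m
    simp only [t]; linarith
  have ht3 : ∀ m, M < t m := by
    intro m
    have := le_abs_self M
    have := abs_nonneg t0
    have : (0 : ℝ) ≤ m := Nat.cast_nonneg m
    simp only [t]; linarith
  have htinj : ∀ m m', m ≠ m' → t m ≠ t m' := by
    intro m m' h h'
    apply h
    simp only [t] at h'
    exact_mod_cast add_left_cancel h'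
  have hU : ∀ m, ∃ U : Module.End ℂ (ℂ × V n), P X (t m) * U = 1 ∧ U * P X (t m) = 1 := by
    intro m
    obtain ⟨u, hu⟩ := ht0 (t m) (ht1 m)
    exact ⟨↑u⁻¹, by rw [← hu]; exact u.mul_inv, by rw [← hu]; exact u.inv_mul⟩
  choose U hU1 hU2 using hU
  have hXP : ∀ s, X * P X s = P X s * X := by
    intro s; simp only [P, mul_sub, sub_mul, mul_smul_comm, smul_mul_assoc, mul_one, one_mul]
  have hXQ : ∀ s, X * Q X s = Q X s * X := by
    intro s; simp only [Q, mul_add, add_mul, mul_smul_comm, smul_mul_assoc, mul_one, one_mul]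
  have hPQ : ∀ s s', P X s * Q X s' = Q X s' * P X s := by
    intro s s'
    conv_lhs => rw [Q, mul_add, mul_smul_comm, mul_one, ← hXP s]
    conv_rhs => rw [Q, add_mul, smul_mul_assoc, one_mul]
  have hXU : ∀ m, X * U m = U m * X := by
    intro m
    calc X * U m = (U m * P X (t m)) * (X * U m) := by rw [hU2, one_mul]
      _ = U m * (P X (t m) * X) * U m := by simp only [mul_assoc]
      _ = U m * (X * P X (t m)) * U m := by rw [hXP]
      _ = U m * X * (P X (t m) * U m) := by simp only [mul_assoc]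
      _ = U m * X := by rw [hU1, mul_one]
  refine ⟨fun m => Q X (t m) * U m, ?_, ?_, ?_⟩
  · intro m a b
    have ea : a = P X (t m) (U m a) := by
      have := congrArg (fun Y => Y a) (hU1 m)
      simpa using this.symm
    have eb : b = P X (t m) (U m b) := by
      have := congrArg (fun Y => Y b) (hU1 m)
      simpa using this.symm
    have e1 : J a b = J (P X (t m) (U m a)) (P X (t m) (U m b)) := by rw [← ea, ← eb]
    rw [e1, J_P X hX]
    change J (Q X (t m) (U m a)) (Q X (t m) (U m b)) = _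
    rw [J_Q X hX]
    have e2 := congrArg (fun Y => Y (U m b)) (hPQ (t m) (t m))
    simp only [Module.End.mul_apply] at e2
    rw [e2]
  · intro m
    change (Q X (t m) * U m) * X = X * (Q X (t m) * U m)
    rw [mul_assoc, ← hXU, ← mul_assoc, ← hXQ, mul_assoc]
  · rintro m m' hmm ⟨c, hc⟩
    change Q X (t m) * U m = c • (Q X (t m') * U m') at hc
    -- clear denominators
    have h1 : Q X (t m) * P X (t m') = c • (Q X (t m') * P X (t m)) := by
      have h2 := congrArg (fun Y => Y * (P X (t m) * P X (t m'))) hc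
      simp only [smul_mul_assoc] at h2
      have h3 : Q X (t m) * U m * (P X (t m) * P X (t m')) = Q X (t m) * P X (t m') := by
        calc _ = Q X (t m) * (U m * P X (t m)) * P X (t m') := by simp only [mul_assoc]
          _ = _ := by rw [hU2, mul_one]
      have h5 : P X (t m) * P X (t m') = P X (t m') * P X (t m) := by
        simp only [P, mul_sub, sub_mul, mul_smul_comm, smul_mul_assoc, mul_one, one_mul, smul_sub, smul_smul]
        rw [mul_comm (Complex.I * (t m' : ℂ)) (Complex.I * (t m : ℂ))]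
        abel
      have h4 : Q X (t m') * U m' * (P X (t m) * P X (t m')) = Q X (t m') * P X (t m) := by
        rw [h5]
        calc _ = Q X (t m') * (U m' * P X (t m')) * P X (t m) := by simp only [mul_assoc]
          _ = _ := by rw [hU2, mul_one]
      rw [h3, h4] at h2
      exact h2
    have h6 : ∀ s s' : ℝ, Q X s * P X s' =
        X * X + (Complex.I * (s - s')) • X + ((s * s' : ℝ) : ℂ) • (1 : Module.End ℂ (ℂ × V n)) := by
      intro s s'
      simp only [Q, P, mul_sub, add_mul, mul_smul_comm, smul_mul_assoc, mul_one, one_mul, smul_add, smul_smul]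
      have : Complex.I * (s' : ℂ) * (Complex.I * s) = -(((s * s' : ℝ) : ℂ)) := by
        push_cast
        linear_combination (s' : ℂ) * s * Complex.I_mul_I
      rw [this]
      module
    rw [h6, h6] at h1
    have hts : t m ≠ t m' := htinj m m' hmm
    have h7 : (1 - c) • (X * X) + (Complex.I * (t m - t m') * (1 + c)) • X +
        ((1 - c) * ((t m * t m' : ℝ) : ℂ)) • (1 : Module.End ℂ (ℂ × V n)) = 0 := by
      have h8 := sub_eq_zero.2 h1
      rw [← h8, mul_comm (t m') (t m)]
      module
    by_cases hc1 : c = 1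
    · subst hc1
      simp only [sub_self, zero_smul, zero_add, zero_mul, add_zero] at h7
      rcases smul_eq_zero.1 h7 with h9 | h9
      · have h10 : (t m : ℂ) - t m' ≠ 0 := by
          rw [sub_ne_zero]
          exact_mod_cast hts
        have h11 : Complex.I * ((t m : ℂ) - t m') * (1 + 1) ≠ 0 :=
          mul_ne_zero (mul_ne_zero Complex.I_ne_zero h10) (by norm_num)
        exact h11 h9
      · exact hns' ⟨0, by rw [zero_smul]; exact h9⟩
    · have h12 : (1 : ℂ) - c ≠ 0 := sub_ne_zero.2 (Ne.symm hc1)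
      have h13 : X * X + ((1 - c)⁻¹ * (Complex.I * (t m - t m') * (1 + c))) • X +
          (((t m * t m' : ℝ) : ℂ)) • (1 : Module.End ℂ (ℂ × V n)) = 0 := by
        have h14 := congrArg (fun Y => (1 - c)⁻¹ • Y) h7
        simp only [smul_add, smul_zero, smul_smul] at h14
        have h16 : (1 - c)⁻¹ * ((1 - c) * ((t m * t m' : ℝ) : ℂ)) = ((t m * t m' : ℝ) : ℂ) := by
          rw [← mul_assoc, inv_mul_cancel₀ h12, one_mul]
        rw [inv_mul_cancel₀ h12, one_smul, h16] at h14
        exact h14
      have h15 := hM _ _ h13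
      rw [Complex.norm_real, Real.norm_eq_abs, abs_of_nonneg (by nlinarith [ht2 m, ht2 m'])] at h15
      nlinarith [ht2 m, ht2 m', ht3 m]

end Pool.Agent.H205.RS.CAY
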